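import Pool.Agent.P.MP_4fa782_ag.LD.Coord
import Pool.Agent.P.MP_4fa782_ag.Final

/-! The completion of the order is not saturated. -/

namespace Pool.Agent.P.MP_4fa782_ag.LD

open IsLocalRing
open scoped nonZeroDivisors

theorem dominates_of_oStar (R o : Type) [CommRing R] [IsDomain R] [CommRing o] [Algebra R o]
    {η ζ : FractionRing o} (h : ∀ ψ φ : Conj R o, ∃ r ∈ oStar R (FractionRing o) (Om R),
      ψ η - φ η = r * (ψ ζ - φ ζ)) : Dominates R (FractionRing o) (Om R) η ζ := by
  intro ψ φ
  obtain ⟨r, h0, hr⟩ := h ψ φ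
  constructor
  · intro h1
    rw [h1, sub_self, mul_zero] at hr
    exact sub_eq_zero.mp hr
  · intro h1
    rwa [hr, mul_div_cancel_right₀ _ (sub_ne_zero.mpr h1)]

namespace Dat

variable {R L : Type} [CommRing R] [IsDomain R] [IsLocalRing R] [Field L] [Algebra R L]
  (D : Dat R L)

/-- The generators of the order. -/
def g1 : D.oo := ⟨D.ev ![0, D.t * D.s, D.t * D.p], _, ⟨D.t, 0, D.t_mem, by simp, by simp⟩, rfl⟩

/-- The generators of the order. -/
def g2 : D.oo := ⟨D.ev ![0, D.s ^ 2 * D.s, D.s ^ 2 * D.p], _,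
  ⟨D.s ^ 2, 0, D.ss_mem, by simp, by simp⟩, rfl⟩

/-- The generators of the order. -/
def g3 : D.oo := ⟨D.ev ![0, D.p ^ 2, D.s], _, ⟨0, 1, zero_mem _, by simp, by simp⟩, rfl⟩

theorem co_g1 : D.co D.g1 = ![0, D.t * D.s, D.t * D.p] := D.co_eq rfl

theorem co_g2 : D.co D.g2 = ![0, D.s ^ 2 * D.s, D.s ^ 2 * D.p] := D.co_eq rfl

theorem co_g3 : D.co D.g3 = ![0, D.p ^ 2, D.s] := D.co_eq rfl

theorem g2_sq : D.g2 * D.g2 = algebraMap R D.oo D.s * algebraMap R D.oo D.s *
    (algebraMap R D.oo (2 * D.s ^ 4 * D.p) + algebraMap R D.oo (D.s ^ 3) * D.g3) := by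
  apply Subtype.ext
  simp only [MulMemClass.coe_mul, AddMemClass.coe_add, SubalgebraClass.coe_algebraMap]
  simp only [g2, g3, ev_apply, Matrix.cons_val_zero, Matrix.cons_val_one, Matrix.cons_val,
    map_mul, map_pow, map_zero, map_ofNat, ← D.cub.cube]
  ring

theorem not_s_dvd : ¬ algebraMap R D.oo D.s ∣ D.g2 := by
  rintro ⟨z, hz⟩
  obtain ⟨α, β, hα, h1, h2⟩ := D.good_co z
  have h := congrArg D.co hz
  rw [← Algebra.smul_def, map_smul, co_g2] at h
  have e1 := congrFun h 1
  have e2 := congrFun h 2
  simp only [Matrix.cons_val_zero, Matrix.cons_val_one, Matrix.cons_val, Pi.smul_apply,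
    smul_eq_mul, h1, h2] at e1 e2
  have h3 : α = D.s := mul_left_cancel₀ D.d_ne_zero (by
    unfold d
    linear_combination D.s * e1 - D.p ^ 2 * e2)
  obtain ⟨a, b, hab⟩ := Ideal.mem_span_pair.1 hα
  have h4 : D.t ∣ D.s * (1 - b * D.s) := ⟨a, by linear_combination -hab - h3⟩
  rcases D.pt.dvd_or_dvd h4 with h5 | ⟨c, hc⟩
  · exact D.nd h5
  · have h6 := Ideal.add_mem _ (Ideal.mul_mem_right c _ D.ht) (Ideal.mul_mem_left _ b D.hs)
    rw [← hc, sub_add_cancel] at h6
    exact h6 isUnit_one

variable [IsNoetherianRing R] [Algebra (Completion R) (Completion D.oo)]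

theorem range_lt_saturation_hat [IsDomain (Completion R)] (h2 : IsUnit (2 : R))
    (hG : IsInduced (algebraMap R D.oo) (algebraMap (Completion R) (Completion D.oo))) :
    (algebraMap (Completion D.oo) (FractionRing (Completion D.oo))).range <
      saturation (Completion R) (Completion D.oo) := by
  have hN := D.isNoetherianRing_oo
  obtain ⟨w, hw⟩ := exists_sqrt h2 D.ht
  set c : D.oo →+* Completion D.oo := algebraMap D.oo (Completion D.oo) with hc
  set q : Completion D.oo →+* FractionRing (Completion D.oo) :=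
    algebraMap (Completion D.oo) (FractionRing (Completion D.oo)) with hq
  set b : R →+* Completion R := algebraMap R (Completion R) with hb
  have hs := D.hat_mem D.s0
  let η : FractionRing (Completion D.oo) :=
    IsLocalization.mk' _ (c D.g2) (⟨_, hs⟩ : (Completion D.oo)⁰)
  have hη : η * q (c (algebraMap R D.oo D.s)) = q (c D.g2) :=
    IsLocalization.mk'_spec _ (c D.g2) (⟨_, hs⟩ : (Completion D.oo)⁰)
  have hsu : IsUnit (q (c (algebraMap R D.oo D.s))) :=
    IsLocalization.map_units _ (⟨_, hs⟩ : (Completion D.oo)⁰)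
  let ζ : Completion D.oo := c D.g3 - algebraMap (Completion R) _ w * c D.g1
  let ξ : Completion D.oo := algebraMap (Completion R) _ (w * b D.p) * c D.g1
  refine lt_of_le_of_ne (range_le_saturation _ _) (fun heq => ?_)
  have hint : IsIntegral (Completion D.oo) (η - q ξ) := by
    refine IsIntegral.sub (IsIntegral.of_pow two_pos ?_) isIntegral_algebraMap
    have e2 := congrArg (fun x => q (c x)) D.g2_sq
    simp only [map_mul q, map_mul c, ← hη] at e2
    have e3 : η ^ 2 = q (c (algebraMap R D.oo (2 * D.s ^ 4 * D.p) +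
        algebraMap R D.oo (D.s ^ 3) * D.g3)) :=
      (hsu.mul hsu).mul_right_cancel (by linear_combination e2)
    rw [e3]
    exact isIntegral_algebraMap
  have hdom : Dominates (Completion R) (FractionRing (Completion D.oo))
      (Om (Completion R)) (η - q ξ) (q ζ) := by
    apply dominates_of_oStar
    set k : Completion R →+* Om (Completion R) := algebraMap (Completion R) _ with hk
    have hkb : Function.Injective (fun r => k (b r)) :=
      (algebraMap_algebraicClosure_injective _).comp algebraMap_completion_injective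
    have hs0 : k (b D.s) ≠ 0 := fun h => D.s0 (hkb (by simpa using h))
    have hd0 : k (b D.d) ≠ 0 := fun h => D.d_ne_zero (hkb (by simpa using h))
    have hp : k (b D.p) = (k (b D.t) * k w) ^ 2 := by
      have e1 := congrArg k hw
      have e2 := congrArg (fun r => k (b r)) D.hp
      simp only [map_pow, map_add, map_one, map_mul] at e1 e2
      linear_combination e2 - k (b D.t) ^ 2 * e1
    have hkm : ∀ (ψ : Conj (Completion R) (Completion D.oo)) (r : Completion R),
        k r ∈ compositum (Completion R) (FractionRing (Completion D.oo)) (Om (Completion R)) :=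
      fun ψ r => Subfield.subset_closure (Set.mem_iUnion.mpr ⟨ψ, algebraMap _ _ r, ψ.commutes r⟩)
    set S := k (b D.s) with hS
    set Q := k (b D.t) * k w with hQ
    have main : ∀ ψ : Conj (Completion R) (Completion D.oo), ∃ y,
        y ∈ compositum (Completion R) (FractionRing (Completion D.oo)) (Om (Completion R)) ∧
        y ^ 3 = S ∧ ψ (q ζ) = (Q ^ 3 - S) * (Q * y - y ^ 2) ∧
        ψ (η - q ξ) = (S - Q ^ 3) * (S * y + Q ^ 2 * y ^ 2) := by
      intro ψ
      have hψ : ∀ r : Completion R, ψ (q (algebraMap (Completion R) _ r)) = k r := fun r => by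
        rw [hq, ← IsScalarTower.algebraMap_apply, AlgHom.commutes]
      let θ : D.oo →+* Om (Completion R) := (ψ : _ →+* _).comp (q.comp c)
      have hθ : ∀ x, θ x = ψ (q (c x)) := fun _ => rfl
      have hθR : ∀ r : R, θ (algebraMap R D.oo r) = k (b r) := fun r => by
        rw [hθ, hc, ← hG.algebraMap, hψ]
      obtain ⟨y, hy⟩ : ∃ y, θ D.x1 = k (b D.d) * y := ⟨θ D.x1 / k (b D.d), by field_simp⟩
      have hz : ∀ z, θ z = k (b (D.co z 0)) + k (b (D.co z 1)) * y + k (b (D.co z 2)) * y ^ 2 := by
        intro z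
        have h1 := congrArg θ (D.d_mul z)
        simp only [map_mul θ, map_add θ, hθR, hy] at h1
        simp only [map_mul, map_pow] at h1
        exact mul_left_cancel₀ (pow_ne_zero 2 hd0) (by linear_combination h1)
      have t1 := hz D.g1
      have t2 := hz D.g2
      have t3 := hz D.g3
      simp only [co_g1, co_g2, co_g3, Matrix.cons_val_zero, Matrix.cons_val_one, Matrix.cons_val,
        map_mul, map_pow, map_zero, hp, ← hS] at t1 t2 t3
      have tη := congrArg ψ hη
      rw [map_mul, ← hθ, ← hθ, hθR, t2] at tη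
      have tη' : ψ η = S * (S * y + Q ^ 2 * y ^ 2) :=
        mul_right_cancel₀ hs0 (by linear_combination tη)
      refine ⟨y, ?_, ?_, ?_, ?_⟩
      · rw [show y = θ D.x1 / k (b D.d) by rw [hy]; field_simp]
        exact div_mem (Subfield.subset_closure (Set.mem_iUnion.mpr ⟨ψ, _, rfl⟩)) (hkm ψ _)
      · have h1 := congrArg θ D.x1_cube
        rw [map_pow, hy, hθR, map_mul, map_mul, map_pow, map_pow] at h1
        exact mul_left_cancel₀ (pow_ne_zero 3 hd0) (by linear_combination h1)
      · simp only [ζ, map_sub, map_mul, hψ, ← hθ, t1, t3]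
        ring
      · simp only [ξ, map_sub, map_mul q, map_mul ψ, hψ, ← hθ, t1, tη', map_mul k, hp]
        ring
    intro ψ φ
    obtain ⟨x, hx, x3, a1, a2⟩ := main ψ
    obtain ⟨y, hy, y3, b1, b2⟩ := main φ
    rw [a1, a2, b1, b2]
    by_cases hxy : x = y
    · exact ⟨0, ⟨zero_mem _, isIntegral_zero⟩, by simp [hxy]⟩
    · have h1 : x ^ 2 + x * y + y ^ 2 = 0 :=
        mul_left_cancel₀ (sub_ne_zero.2 hxy) (by linear_combination x3 - y3)
      have hQ' : Q = k (b D.t * w) := (map_mul _ _ _).symm
      have ix : IsIntegral (Completion R) x := isIntegral_of_cube x3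
      have iy : IsIntegral (Completion R) y := isIntegral_of_cube y3
      refine ⟨-(x + y) * (Q + (x + y)), ⟨mul_mem (neg_mem (add_mem hx hy))
        (add_mem (hQ' ▸ hkm ψ _) (add_mem hx hy)), (ix.add iy).neg.mul
        (IsIntegral.add (hQ' ▸ isIntegral_algebraMap) (ix.add iy))⟩, ?_⟩
      linear_combination (S - Q ^ 3) * (x - y) * (x + 2 * y) * h1 - (S - Q ^ 3) * (x - y) * y3
  have hmem := mem_saturation (Completion R) (Completion D.oo) hint hdom
  rw [← heq] at hmem
  obtain ⟨x, hx⟩ := hmem
  apply D.not_s_dvd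
  apply dvd_of_dvd_completion
  refine ⟨x + ξ, ?_⟩
  apply IsFractionRing.injective (Completion D.oo) (FractionRing (Completion D.oo))
  rw [map_mul, map_add, ← hq, ← hc, ← hη, hx]
  ring

end Dat

theorem main_abstract {R L : Type} [CommRing R] [IsDomain R] [IsLocalRing R] [IsNoetherianRing R]
    [Field L] [Algebra R L] (D : Dat R L) (hreg : IsRegularLocalRing R) (hQ : ℚ →+* R)
    (hN : IsNagata R) [hD : IsDomain (Completion R)]
    (hc : ∀ a b : Completion R, algebraMap R _ D.s * b ^ 3 = a ^ 3 → b = 0) :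
    IsPair R D.oo ∧ IsLocalRing D.oo ∧ IsDomain D.oo ∧ IsDomain (Completion D.oo) ∧
      saturation R D.oo = (algebraMap D.oo (FractionRing D.oo)).range ∧
      ∃ (_ : IsDomain (Completion R)) (_ : Algebra (Completion R) (Completion D.oo)),
        IsInduced (algebraMap R D.oo) (algebraMap (Completion R) (Completion D.oo)) ∧
        Module.IsTorsionFree (Completion R) (Completion D.oo) ∧
        CompletionBelowSaturation (Completion R) (toSaturation R D.oo) := by
  have hu : ∀ n : ℕ, n ≠ 0 → IsUnit (n : R) := fun n hn => by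
    simpa using (IsUnit.mk0 (n : ℚ) (Nat.cast_ne_zero.2 hn)).map hQ
  have hpair : IsPair R D.oo :=
    { noetherian := D.isNoetherianRing_oo
      semilocal := inferInstance
      reduced := inferInstance
      regular := hreg
      domain := inferInstance
      subring := D.algebraMap_injective
      containsField := ⟨hQ⟩
      finite := D.finite_oo
      torsionFree := by
        rw [Module.isTorsionFree_iff_algebraMap_injective]
        exact D.algebraMap_injective
      nagata := hN }
  have hsat := saturation_eq_range R D.oo (D.isSaturated (by simpa using (hu 3 (by simp)).ne_zero))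
  obtain ⟨G, hG⟩ := exists_isInduced (algebraMap R D.oo) D.jacobson_le
  let alg : Algebra (Completion R) (Completion D.oo) := G.toAlgebra
  obtain ⟨g, ι, h1, h3, h4, h5⟩ := exists_embedding R D.oo hsat
  have hdom := D.isDomain_hat hG hc
  refine ⟨hpair, inferInstance, inferInstance, hdom, hsat, hD, alg, hG, ?_, g, h1, ι, h3, h4, ?_⟩
  · rw [Module.isTorsionFree_iff_algebraMap_injective, injective_iff_map_eq_zero]
    intro a ha
    have ha' : G a = 0 := ha
    exact (D.hat_indep hG (a := a) (b := 0) (c := 0) (by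
      rw [ha', map_zero, zero_mul, zero_mul, add_zero, add_zero])).1
  · rw [h5]
    exact D.range_lt_saturation_hat (by simpa using hu 2 (by simp)) hG

end Pool.Agent.P.MP_4fa782_ag.LD
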