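import Pool.Agent.P.MP_4fa782_ag.LD.Nagata
import Pool.Agent.P.MP_4fa782_ag.LD.Hat

/-! The local ring of affine space at the origin. -/

namespace Pool.Agent.P.MP_4fa782_ag.LD

open MvPolynomial

variable (k : Type) [Field k] (n : ℕ)

/-- The polynomial ring. -/
abbrev PA : Type := MvPolynomial (Fin (n + 2)) k

/-- The ideal of the origin. -/
noncomputable abbrev PP : Ideal (PA k n) := idealOfVars (Fin (n + 2)) k

variable {k n} in
theorem mem_PP (p : PA k n) : p ∈ PP k n ↔ constantCoeff p = 0 := by
  have h := mem_pow_idealOfVars_iff' (σ := Fin (n + 2)) (R := k) 1 p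
  rw [pow_one] at h
  rw [h]
  constructor
  · intro H
    exact H 0 (by simp)
  · intro H x hx
    have : x = 0 := by
      rw [← Finsupp.degree_eq_zero_iff]
      omega
    rw [this]
    exact H

instance PP_isMaximal : (PP k n).IsMaximal := by
  have : PP k n = RingHom.ker (constantCoeff : PA k n →+* k) := by
    ext p
    rw [mem_PP, RingHom.mem_ker]
  rw [this]
  apply RingHom.ker_isMaximal_of_surjective
  intro c
  exact ⟨C c, by simp⟩

/-- The local ring at the origin. -/
abbrev RR : Type := Localization.AtPrime (PP k n)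

/-- The discriminant curve, up to sign. -/
noncomputable def fA : PA k n := X 0 ^ 2 - (X 1 ^ 2 * (1 + X 1)) ^ 3

theorem irreducible_fA : Irreducible (fA k n) := by
  have e := MulEquiv.irreducible_iff (x := fA k n) (finSuccEquiv k (n + 1))
  rw [← e]
  have h1 : finSuccEquiv k (n + 1) (fA k n) = Polynomial.X ^ 2 -
      Polynomial.C ((X 0 ^ 2 * (1 + X 0)) ^ 3 : MvPolynomial (Fin (n + 1)) k) := by
    have : (1 : Fin (n + 2)) = Fin.succ 0 := rfl
    simp only [fA, map_sub, map_pow, map_mul, map_add, map_one, finSuccEquiv_X_zero]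
    rw [this, finSuccEquiv_X_succ]
  rw [h1]
  have hm : (Polynomial.X ^ 2 -
      Polynomial.C ((X 0 ^ 2 * (1 + X 0)) ^ 3 : MvPolynomial (Fin (n + 1)) k)).Monic :=
    Polynomial.monic_X_pow_sub_C _ (by norm_num)
  have hd : (Polynomial.X ^ 2 -
      Polynomial.C ((X 0 ^ 2 * (1 + X 0)) ^ 3 : MvPolynomial (Fin (n + 1)) k)).natDegree = 2 :=
    Polynomial.natDegree_X_pow_sub_C
  rw [hm.irreducible_iff_roots_eq_zero_of_degree_le_three (by omega) (by omega)]
  rw [Multiset.eq_zero_iff_forall_notMem]
  intro r hr
  have h2 := (Polynomial.mem_roots hm.ne_zero).mp hr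
  simp only [Polynomial.IsRoot.def, Polynomial.eval_sub, Polynomial.eval_pow, Polynomial.eval_X,
    Polynomial.eval_C, sub_eq_zero] at h2
  have h3 := congrArg (fun p => (aeval (fun _ : Fin (n + 1) => (Polynomial.X : Polynomial k))
    p).natDegree) h2
  have h4 : (Polynomial.X ^ 2 * (1 + Polynomial.X) : Polynomial k).natDegree = 3 := by
    compute_degree!
  simp only [map_pow, map_mul, map_add, map_one, aeval_X, Polynomial.natDegree_pow, h4] at h3
  omega

theorem algebraMap_RR_injective : Function.Injective (algebraMap (PA k n) (RR k n)) :=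
  IsLocalization.injective (RR k n) (PP k n).primeCompl_le_nonZeroDivisors

variable {k n} in
theorem prime_RR {a : PA k n} (hp : Prime a) (ha : constantCoeff a = 0) :
    Prime (algebraMap (PA k n) (RR k n) a) ∧
      ∀ b, algebraMap (PA k n) (RR k n) a ∣ algebraMap (PA k n) (RR k n) b → a ∣ b := by
  have h0 : algebraMap (PA k n) (RR k n) a ≠ 0 :=
    (map_ne_zero_iff _ (algebraMap_RR_injective k n)).mpr hp.ne_zero
  have h1 : (Ideal.span {a}).IsPrime := (Ideal.span_singleton_prime hp.ne_zero).mpr hp
  have h2 : Ideal.span {a} ≤ PP k n := by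
    rwa [Ideal.span_singleton_le_iff_mem, mem_PP]
  have h3 := IsLocalization.isPrime_of_isPrime_disjoint (PP k n).primeCompl (RR k n) _ h1
    (Set.disjoint_compl_left_iff_subset.mpr h2)
  have h4 := IsLocalization.under_map_of_isPrime_disjoint (PP k n).primeCompl (RR k n) h1
    (Set.disjoint_compl_left_iff_subset.mpr h2)
  rw [Ideal.map_span, Set.image_singleton] at h3 h4
  refine ⟨(Ideal.span_singleton_prime h0).1 h3, fun b hb => ?_⟩
  rw [← Ideal.mem_span_singleton, ← h4]
  exact Ideal.mem_span_singleton.2 hb

theorem X_mem_max (i : Fin (n + 2)) :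
    algebraMap (PA k n) (RR k n) (X i) ∈ IsLocalRing.maximalIdeal (RR k n) := by
  rw [IsLocalization.AtPrime.to_map_mem_maximal_iff (RR k n) (PP k n), mem_PP]
  simp

/-- Killing the first `j` variables. -/
noncomputable def kill (j : ℕ) : PA k n →ₐ[k] PA k n :=
  aeval fun i => if i.1 < j then 0 else X i

theorem height_kill (j : ℕ) (hj : j ≤ n + 2) : (j : ℕ∞) ≤ (RingHom.ker (kill k n j)).height := by
  induction j with
  | zero => exact zero_le
  | succ j ih =>
    have := RingHom.ker_isPrime (kill k n j)
    have := RingHom.ker_isPrime (kill k n (j + 1))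
    have h1 : (kill k n (j + 1)).comp (kill k n j) = kill k n (j + 1) := by
      refine algHom_ext fun i => ?_
      simp only [kill, AlgHom.comp_apply, aeval_X]
      split_ifs with h2 h3 h3
      · simp
      · omega
      · rw [aeval_X, if_pos h3]
      · rw [aeval_X, if_neg h3]
    have h2 : RingHom.ker (kill k n j) < RingHom.ker (kill k n (j + 1)) := by
      refine lt_of_le_of_ne (fun a ha => ?_) fun h => ?_
      · rw [RingHom.mem_ker] at ha ⊢
        rw [← h1, AlgHom.comp_apply, ha, map_zero]
      · have h3 : (X ⟨j, hj⟩ : PA k n) ∈ RingHom.ker (kill k n j) := by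
          rw [h, RingHom.mem_ker]
          simp [kill]
        rw [RingHom.mem_ker] at h3
        simp [kill] at h3
    push_cast
    exact (add_le_add_left (ih (by omega)) 1).trans (Ideal.height_add_one_le_of_lt_of_isPrime h2)

theorem ringKrullDim_RR : ringKrullDim (RR k n) = (n + 2 : ℕ) := by
  rw [IsLocalization.AtPrime.ringKrullDim_eq_height (PP k n) (RR k n)]
  apply le_antisymm
  · have h1 : ringKrullDim (PA k n) = (n + 2 : ℕ) := by
      rw [MvPolynomial.ringKrullDim_of_isNoetherianRing]
      simp
    rw [← h1]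
    exact Ideal.height_le_ringKrullDim_of_isPrime
  · have h1 : RingHom.ker (kill k n (n + 2)) ≤ PP k n := fun a ha => by
      have h2 : (constantCoeff : PA k n →+* k).comp (kill k n (n + 2) : PA k n →+* PA k n) =
          constantCoeff := by
        refine ringHom_ext (fun c => ?_) fun i => ?_ <;> simp [kill]
      rw [mem_PP, ← h2, RingHom.comp_apply, RingHom.coe_coe, RingHom.mem_ker.1 ha, map_zero]
    exact WithBot.coe_le_coe.mpr ((height_kill k n _ le_rfl).trans (Ideal.height_mono h1))

theorem exists_series : ∃ H : AdicCompletion (IsLocalRing.maximalIdeal (RR k n)) (RR k n) →+*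
    MvPowerSeries (Fin (n + 2)) k, Function.Injective H ∧
      H (algebraMap (RR k n) _ (algebraMap (PA k n) (RR k n) (X 0))) = MvPowerSeries.X 0 := by
  let F : (m : ℕ) → AdicCompletion (IsLocalRing.maximalIdeal (RR k n)) (RR k n) →+*
      PA k n ⧸ PP k n ^ m := fun m =>
    (IsLocalization.AtPrime.equivQuotMaximalIdealPow (PP k n) (RR k n)
      m).symm.toRingEquiv.toRingHom.comp
      (AdicCompletion.evalₐ (IsLocalRing.maximalIdeal (RR k n)) m).toRingHom
  have hF : ∀ m x, F m x =
      (IsLocalization.AtPrime.equivQuotMaximalIdealPow (PP k n) (RR k n) m).symm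
      (AdicCompletion.evalₐ (IsLocalRing.maximalIdeal (RR k n)) m x) := fun _ _ => rfl
  have hc : ∀ {m l : ℕ} (hmn : m ≤ l),
      (Ideal.Quotient.factorPow (PP k n) hmn).comp (F l) = F m := by
    intro m l hmn
    refine RingHom.ext fun x => ?_
    rw [RingHom.comp_apply, hF, hF]
    induction x using AdicCompletion.induction_on with
    | _ x =>
      simp only [AdicCompletion.evalₐ_mk]
      rw [← AdicCompletion.Ideal.mk_eq_mk _ hmn x]
      obtain ⟨a, ha⟩ := Ideal.Quotient.mk_surjective
        ((IsLocalization.AtPrime.equivQuotMaximalIdealPow (PP k n) (RR k n) l).symm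
          (Ideal.Quotient.mk _ (x.val l)))
      rw [← ha, AlgEquiv.eq_symm_apply]
      rw [AlgEquiv.eq_symm_apply] at ha
      simp only [IsLocalization.AtPrime.equivQuotMaximalIdealPow_apply_mk,
        Ideal.Quotient.factorPow, Ideal.Quotient.factor_mk] at ha ⊢
      rw [Ideal.Quotient.eq] at ha ⊢
      exact Ideal.pow_le_pow_right hmn ha
  let H : AdicCompletion (IsLocalRing.maximalIdeal (RR k n)) (RR k n) →+*
      AdicCompletion (PP k n) (PA k n) := AdicCompletion.liftRingHom (PP k n) F hc
  have hH : Function.Injective H := by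
    intro x y hxy
    apply AdicCompletion.ext_evalₐ
    intro m
    have := congrArg (AdicCompletion.evalₐ (PP k n) m) hxy
    rw [AdicCompletion.evalₐ_liftRingHom (PP k n) F hc,
      AdicCompletion.evalₐ_liftRingHom (PP k n) F hc, hF, hF] at this
    exact (IsLocalization.AtPrime.equivQuotMaximalIdealPow (PP k n) (RR k n) m).symm.injective this
  let E := (MvPowerSeries.toAdicCompletionAlgEquiv (Fin (n + 2)) k).symm
  refine ⟨E.toRingEquiv.toRingHom.comp H, E.injective.comp hH, ?_⟩
  have h1 : H (algebraMap (RR k n) _ (algebraMap (PA k n) (RR k n) (X 0))) =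
      algebraMap (PA k n) _ (X 0) := by
    apply AdicCompletion.ext_evalₐ
    intro m
    rw [AdicCompletion.evalₐ_liftRingHom (PP k n) F hc, hF, AlgHom.commutes, AlgHom.commutes,
      AlgEquiv.symm_apply_eq]
    exact (IsLocalization.AtPrime.equivQuotMaximalIdealPow_apply_mk ..).symm
  change E (H _) = _
  rw [h1, AlgEquiv.commutes]
  exact MvPolynomial.coe_X _

theorem completion_RR : IsDomain (Completion (RR k n)) ∧ ∀ a b : Completion (RR k n),
    algebraMap (RR k n) _ (algebraMap (PA k n) (RR k n) (X 0)) * b ^ 3 = a ^ 3 → b = 0 := by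
  have key : ∀ I : Ideal (RR k n), I = IsLocalRing.maximalIdeal (RR k n) →
      IsDomain (AdicCompletion I (RR k n)) ∧ ∀ a b : AdicCompletion I (RR k n),
      algebraMap (RR k n) _ (algebraMap (PA k n) (RR k n) (X 0)) * b ^ 3 = a ^ 3 → b = 0 := by
    intro I hI
    subst hI
    obtain ⟨H, h1, h2⟩ := exists_series k n
    have : IsDomain (MvPowerSeries (Fin (n + 2)) k) := NoZeroDivisors.to_isDomain _
    refine ⟨h1.isDomain H, fun a b h => h1 ?_⟩
    have h3 := congrArg (fun x => (H x).order) h
    have h4 : (MvPowerSeries.X 0 : MvPowerSeries (Fin (n + 2)) k).order = 1 := by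
      rw [MvPowerSeries.X, MvPowerSeries.order_monomial_of_ne_zero one_ne_zero]
      simp
    simp only [map_mul, h2, pow_three, MvPowerSeries.order_mul, h4] at h3
    rw [map_zero, ← MvPowerSeries.order_eq_top_iff]
    generalize (H a).order = u at h3
    generalize (H b).order = v at h3
    induction v using ENat.recTopCoe with
    | top => rfl
    | coe v =>
      induction u using ENat.recTopCoe with
      | top => exact absurd h3 (by norm_cast)
      | coe u =>
        norm_cast at h3
        omega
  exact key _ (IsLocalRing.ringJacobson_eq_maximalIdeal (RR k n))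

theorem residue_RR (x : RR k n) : ∃ c : k, ¬ IsUnit (x - algebraMap k (RR k n) c) := by
  obtain ⟨⟨a, b⟩, h⟩ := IsLocalization.surj (PP k n).primeCompl x
  have hb : constantCoeff (b : PA k n) ≠ 0 := fun h => b.2 ((mem_PP _).2 h)
  refine ⟨constantCoeff a / constantCoeff (b : PA k n), fun hu => ?_⟩
  have h1 := hu.mul (IsLocalization.map_units (RR k n) b)
  rw [sub_mul, h, IsScalarTower.algebraMap_apply k (PA k n) (RR k n), ← map_mul, ← map_sub,
    IsLocalization.AtPrime.isUnit_to_map_iff (RR k n) (PP k n)] at h1
  exact h1 ((mem_PP _).2 (by simp [hb]))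

theorem main [CharZero k] : ∃ (o : Type) (_ : CommRing o) (_ : Algebra (RR k n) o),
    IsPair (RR k n) o ∧ IsLocalRing o ∧ IsDomain o ∧ IsDomain (Completion o) ∧
      saturation (RR k n) o = (algebraMap o (FractionRing o)).range ∧
      ∃ (_ : IsDomain (Completion (RR k n))) (_ : Algebra (Completion (RR k n)) (Completion o)),
        IsInduced (algebraMap (RR k n) o) (algebraMap (Completion (RR k n)) (Completion o)) ∧
        Module.IsTorsionFree (Completion (RR k n)) (Completion o) ∧
        CompletionBelowSaturation (Completion (RR k n)) (toSaturation (RR k n) o) := by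
  have := isIntegrallyClosed_of_isLocalization (RR k n) (PP k n).primeCompl
    (PP k n).primeCompl_le_nonZeroDivisors
  have hs := prime_RR (k := k) (n := n) (X_prime (i := 0)) (by simp)
  have ht := prime_RR (k := k) (n := n) (X_prime (i := 1)) (by simp)
  have hf := prime_RR (irreducible_fA k n).prime (by simp [fA])
  obtain ⟨L, _, _, σ, hσ⟩ := exists_cub hs.1 (by
    simpa [map_ofNat] using (IsUnit.mk0 (3 : k) three_ne_zero).map (algebraMap k (RR k n)))
  let D : Dat (RR k n) L :=
    { s := _, t := _, p := _, σ := σ, hp := rfl, hs := X_mem_max k n 0, ht := X_mem_max k n 1,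
      s0 := hs.1.ne_zero, pt := ht.1, cub := hσ
      nd := fun h => absurd (X_dvd_X.1 (ht.2 _ h)) (by simp)
      pf := by simpa [fA] using hf.1.neg }
  obtain ⟨hD, hc⟩ := completion_RR k n
  exact ⟨D.oo, inferInstance, inferInstance, main_abstract D inferInstance
    ((algebraMap k (RR k n)).comp (algebraMap ℚ k))
    (isNagata_of_isLocalization k (PA k n) (RR k n) (PP k n).primeCompl) hc⟩

end Pool.Agent.P.MP_4fa782_ag.LD
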