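import Pool.Agent.P.MP_4fa782_ag.LD.Order

/-! Coordinates in the completion of the order; the completion is a domain. -/

namespace Pool.Agent.P.MP_4fa782_ag.LD

open IsLocalRing AdicCompletion
open scoped nonZeroDivisors

section general

variable {A B : Type} [CommRing A] [CommRing B]

theorem exists_congr (n : ℕ) (x : Completion A) : ∃ a, Congr n x a := by
  obtain ⟨a, ha⟩ := Ideal.Quotient.mk_surjective (evalₐ (Ring.jacobson A) n x)
  exact ⟨a, ha.symm⟩

theorem congr_mono {m n : ℕ} (h : m ≤ n) {x : Completion A} {a : A} (hx : Congr n x a) :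
    Congr m x a := by
  induction x using AdicCompletion.induction_on with
  | _ x =>
    unfold Congr at hx ⊢
    rw [evalₐ_mk] at hx ⊢
    rw [← AdicCompletion.Ideal.mk_eq_mk _ h x, Ideal.Quotient.eq]
    exact Ideal.pow_le_pow_right h (Ideal.Quotient.eq.1 hx)

theorem congr_sub {n : ℕ} {x : Completion A} {a b : A} (ha : Congr n x a) (hb : Congr n x b) :
    a - b ∈ Ring.jacobson A ^ n := Ideal.Quotient.eq.1 (ha.symm.trans hb)

theorem congr_add {n : ℕ} {x y : Completion A} {a b : A} (ha : Congr n x a) (hb : Congr n y b) :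
    Congr n (x + y) (a + b) := by
  unfold Congr at *
  rw [map_add, map_add, ha, hb]

theorem congr_mul {n : ℕ} {x y : Completion A} {a b : A} (ha : Congr n x a) (hb : Congr n y b) :
    Congr n (x * y) (a * b) := by
  unfold Congr at *
  rw [map_mul, map_mul, ha, hb]

theorem congr_of (n : ℕ) (a : A) : Congr n (algebraMap A (Completion A) a) a :=
  (evalₐ (Ring.jacobson A) n).commutes a

theorem eq_of_congr {x y : Completion A} (h : ∀ n, ∃ a, Congr n x a ∧ Congr n y a) : x = y :=
  ext_evalₐ fun n => by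
    obtain ⟨a, h1, h2⟩ := h n
    exact h1.trans h2.symm

theorem eq_zero_of_congr {x : Completion A}
    (h : ∀ n, ∃ a, Congr n x a ∧ a ∈ Ring.jacobson A ^ n) : x = 0 :=
  ext_evalₐ fun n => by
    obtain ⟨a, h1, h2⟩ := h n
    rw [_root_.map_zero, h1, Ideal.Quotient.eq_zero_iff_mem.2 h2]

theorem exists_coord [Algebra A B] {k : ℕ} (π : B →ₗ[A] A)
    (hπ : ∀ n, ∀ z ∈ Ring.jacobson B ^ (k * n), π z ∈ Ring.jacobson A ^ n) (x : Completion B) :
    ∃ c : Completion A, ∀ n z, Congr (k * n) x z → Congr n c (π z) := by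
  choose z hz using fun n => exists_congr (k * n) x
  refine ⟨mk _ _ (AdicCauchySequence.mk (Ring.jacobson A) A (fun n => π (z n)) fun n => ?_),
    fun n w hw => ?_⟩
  · rw [SModEq.sub_mem, smul_eq_mul, Ideal.mul_top, ← map_sub]
    exact hπ n _ (congr_sub (hz n) (congr_mono (Nat.mul_le_mul_left k n.le_succ) (hz (n + 1))))
  · unfold Congr
    rw [evalₐ_mk, Ideal.Quotient.eq]
    change π (z n) - π w ∈ _
    rw [← map_sub]
    exact hπ n _ (congr_sub (hz n) hw)

end general

namespace Dat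

variable {R L : Type} [CommRing R] [IsDomain R] [IsLocalRing R] [Field L] [Algebra R L]
  (D : Dat R L)

/-- A common denominator. -/
def d : R := D.s * (D.p ^ 3 - D.s ^ 2)

theorem d_ne_zero : D.d ≠ 0 := mul_ne_zero D.s0 D.pf.ne_zero

/-- A multiple of the cube root lying in the order. -/
def x1 : D.oo := ⟨D.ev ![0, D.d, 0], _, ⟨-D.s ^ 2, D.s * D.p, neg_mem D.ss_mem,
  by simp [d]; ring, by simp; ring⟩, rfl⟩

theorem x1_cube : D.x1 ^ 3 = algebraMap R D.oo (D.d ^ 3 * D.s) := by
  apply Subtype.ext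
  simp only [SubmonoidClass.coe_pow, SubalgebraClass.coe_algebraMap]
  simp [x1, ev_apply, ← D.cub.cube, mul_pow]

theorem d_mul (z : D.oo) : algebraMap R D.oo (D.d ^ 2) * z =
    algebraMap R D.oo (D.d ^ 2 * D.co z 0) + algebraMap R D.oo (D.d * D.co z 1) * D.x1 +
      algebraMap R D.oo (D.co z 2) * (D.x1 * D.x1) := by
  apply Subtype.ext
  simp only [MulMemClass.coe_mul, AddMemClass.coe_add, SubalgebraClass.coe_algebraMap]
  rw [← D.ev_co z]
  simp [x1, ev_apply]
  ring

theorem co_comb (a b c : R) : D.co (algebraMap R D.oo a + algebraMap R D.oo b * D.x1 +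
    algebraMap R D.oo c * (D.x1 * D.x1)) = ![a, D.d * b, D.d ^ 2 * c] := by
  apply D.co_eq
  simp only [MulMemClass.coe_mul, AddMemClass.coe_add, SubalgebraClass.coe_algebraMap]
  simp [x1, ev_apply]
  ring

theorem algebraMap_mem {r : R} (hr : r ≠ 0) : algebraMap R D.oo r ∈ D.oo⁰ :=
  mem_nonZeroDivisors_of_ne_zero ((map_ne_zero_iff _ D.algebraMap_injective).2 hr)

variable [IsNoetherianRing R]

theorem exists_k : ∃ k, 0 < k ∧ ∀ i n, ∀ z ∈ Ring.jacobson D.oo ^ (k * n),
    D.co z i ∈ Ring.jacobson R ^ n := by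
  have := D.finite_oo
  have := D.isNoetherianRing_oo
  obtain ⟨k, hk⟩ : ∃ k, Ring.jacobson D.oo ^ k ≤ (Ring.jacobson R).map (algebraMap R D.oo) := by
    refine Ideal.exists_pow_le_of_le_radical_of_fg ?_ (IsNoetherian.noetherian _)
    rw [Ideal.radical_eq_sInf]
    refine le_sInf fun P ⟨h1, h2⟩ => ?_
    have h3 : (P.comap (algebraMap R D.oo)).IsMaximal := by
      rw [ringJacobson_eq_maximalIdeal, Ideal.map_le_iff_le_comap] at h1
      rw [← (maximalIdeal.isMaximal R).eq_of_le (Ideal.comap_isPrime _ P).ne_top h1]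
      exact maximalIdeal.isMaximal R
    rw [ringJacobson_eq_maximalIdeal,
      eq_maximalIdeal (Ideal.isMaximal_of_isIntegral_of_isMaximal_comap P h3)]
  refine ⟨k + 1, k.succ_pos, fun i n z hz => ?_⟩
  have h1 : z ∈ (Ring.jacobson R ^ n) • (⊤ : Submodule R D.oo) := by
    rw [Ideal.smul_top_eq_map, Ideal.map_pow]
    rw [pow_mul] at hz
    exact Ideal.pow_right_mono ((Ideal.pow_le_pow_right k.le_succ).trans hk) n hz
  refine Submodule.smul_induction_on h1 (fun r hr w _ => ?_) fun a b ha hb => ?_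
  · rw [map_smul]
    exact Ideal.mul_mem_right _ _ hr
  · rw [map_add]
    exact Ideal.add_mem _ ha hb

theorem hat_mem {r : R} (hr : r ≠ 0) :
    algebraMap D.oo (Completion D.oo) (algebraMap R D.oo r) ∈ (Completion D.oo)⁰ :=
  have := D.isNoetherianRing_oo
  algebraMap_mem_nonZeroDivisors (D.algebraMap_mem hr)

variable {G : Completion R →+* Completion D.oo}

theorem hat_gen (hG : IsInduced (algebraMap R D.oo) G) (x : Completion D.oo) :
    ∃ a b c : Completion R,
      algebraMap D.oo (Completion D.oo) (algebraMap R D.oo (D.d ^ 2)) * x =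
        G a + G b * algebraMap D.oo _ D.x1 +
          G c * (algebraMap D.oo _ D.x1 * algebraMap D.oo _ D.x1) := by
  obtain ⟨k, hk, h⟩ := D.exists_k
  choose c hc using fun i => exists_coord (LinearMap.proj i ∘ₗ D.co) (h i) x
  refine ⟨algebraMap R _ (D.d ^ 2) * c 0, algebraMap R _ D.d * c 1, c 2, eq_of_congr fun n => ?_⟩
  obtain ⟨z, hz⟩ := exists_congr (k * n) x
  refine ⟨_, congr_mul (congr_of n _) (congr_mono (Nat.le_mul_of_pos_left n hk) hz), ?_⟩
  rw [d_mul]
  exact congr_add (congr_add (hG n _ _ (congr_mul (congr_of n _) (hc 0 n z hz)))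
    (congr_mul (hG n _ _ (congr_mul (congr_of n _) (hc 1 n z hz))) (congr_of n _)))
    (congr_mul (hG n _ _ (hc 2 n z hz)) (congr_mul (congr_of n _) (congr_of n _)))

theorem hat_indep [IsDomain (Completion R)] (hG : IsInduced (algebraMap R D.oo) G)
    {a b c : Completion R} (h0 : G a + G b * algebraMap D.oo _ D.x1 +
      G c * (algebraMap D.oo _ D.x1 * algebraMap D.oo _ D.x1) = 0) : a = 0 ∧ b = 0 ∧ c = 0 := by
  obtain ⟨k, hk, h⟩ := D.exists_k
  have key : ∀ n, ∃ a' b' c', Congr n a a' ∧ Congr n b b' ∧ Congr n c c' ∧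
      ∀ i, ![a', D.d * b', D.d ^ 2 * c'] i ∈ Ring.jacobson R ^ n := by
    intro n
    obtain ⟨a', ha⟩ := exists_congr (k * n) a
    obtain ⟨b', hb⟩ := exists_congr (k * n) b
    obtain ⟨c', hc⟩ := exists_congr (k * n) c
    have hn := Nat.le_mul_of_pos_left n hk
    refine ⟨a', b', c', congr_mono hn ha, congr_mono hn hb, congr_mono hn hc, fun i => ?_⟩
    rw [← co_comb]
    apply h
    have h1 := congr_add (congr_add (hG _ _ _ ha) (congr_mul (hG _ _ _ hb) (congr_of _ D.x1)))
      (congr_mul (hG _ _ _ hc) (congr_mul (congr_of _ D.x1) (congr_of _ D.x1)))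
    rw [h0, ← _root_.map_zero (algebraMap D.oo (Completion D.oo))] at h1
    simpa using congr_sub h1 (congr_of _ 0)
  have hd : algebraMap R (Completion R) D.d ≠ 0 :=
    (map_ne_zero_iff _ algebraMap_completion_injective).2 D.d_ne_zero
  refine ⟨eq_zero_of_congr fun n => ?_, (mul_eq_zero.1 (eq_zero_of_congr fun n => ?_)).resolve_left
    hd, (mul_eq_zero.1 (eq_zero_of_congr fun n => ?_)).resolve_left (pow_ne_zero 2 hd)⟩
  all_goals obtain ⟨a', b', c', h1, h2, h3, h4⟩ := key n
  · exact ⟨_, h1, h4 0⟩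
  · exact ⟨_, congr_mul (congr_of n _) h2, h4 1⟩
  · rw [← map_pow]
    exact ⟨_, congr_mul (congr_of n _) h3, h4 2⟩

theorem isDomain_hat [IsDomain (Completion R)] (hG : IsInduced (algebraMap R D.oo) G)
    (hc : ∀ a b : Completion R, algebraMap R _ D.s * b ^ 3 = a ^ 3 → b = 0) :
    IsDomain (Completion D.oo) := by
  have := D.isNoetherianRing_oo
  have : Nontrivial (Completion D.oo) := algebraMap_completion_injective.nontrivial
  suffices NoZeroDivisors (Completion D.oo) from NoZeroDivisors.to_isDomain _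
  refine ⟨fun {x x'} hx => ?_⟩
  obtain ⟨a, b, c, h⟩ := D.hat_gen hG x
  obtain ⟨a', b', c', h'⟩ := D.hat_gen hG x'
  set y := algebraMap D.oo (Completion D.oo) D.x1 with hy
  set e : Completion R := algebraMap R _ (D.d ^ 3 * D.s) with he
  have hy3 : y ^ 3 = G e := by rw [hy, ← map_pow, x1_cube, he, hG.algebraMap]
  obtain ⟨r0, r1, r2⟩ := D.hat_indep hG (a := a * a' + e * (b * c' + c * b'))
    (b := a * b' + b * a' + e * (c * c')) (c := a * c' + b * b' + c * a') (by
      have h1 : (G a + G b * y + G c * (y * y)) * (G a' + G b' * y + G c' * (y * y)) = 0 := by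
        rw [← h, ← h', mul_mul_mul_comm, hx, mul_zero]
      simp only [map_add, map_mul, ← hy3, ← hy]
      linear_combination h1)
  have hd : algebraMap R (Completion R) D.d ≠ 0 :=
    (map_ne_zero_iff _ algebraMap_completion_injective).2 D.d_ne_zero
  have hcube : ∀ u v : Completion R, e * v ^ 3 = u ^ 3 → v = 0 := fun u v huv =>
    (mul_eq_zero.1 (hc u (algebraMap R _ D.d * v) (by
      rw [← huv, he, map_mul, map_pow]; ring))).resolve_left hd
  have hz : ∀ {z : Completion D.oo},
      algebraMap D.oo (Completion D.oo) (algebraMap R D.oo (D.d ^ 2)) * z = 0 → z = 0 :=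
    fun hz => mem_nonZeroDivisors_iff_left.1 (D.hat_mem (pow_ne_zero 2 D.d_ne_zero)) _ hz
  by_cases hN : a ^ 3 + e * b ^ 3 + e ^ 2 * c ^ 3 - 3 * e * a * b * c = 0
  · left
    have h1 : a * c - b ^ 2 = 0 := hcube (a * b - e * c ^ 2) _ (by
      linear_combination (e * c ^ 3 - b ^ 3) * hN)
    have hcc : c = 0 := hcube b c (by
      have h2 : (e * c ^ 3 - b ^ 3) ^ 2 = 0 := by
        linear_combination c ^ 3 * hN -
          ((a * c - b ^ 2) ^ 2 + 3 * (a * c) * b ^ 2 - 3 * e * b * c ^ 3) * h1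
      exact sub_eq_zero.1 (pow_eq_zero_iff two_ne_zero |>.1 h2))
    have hb : b = 0 := by simpa [hcc] using h1
    have ha : a = 0 := by simpa [hcc, hb] using hN
    exact hz (by rw [h, ha, hb, hcc]; simp)
  · right
    have ha : a' = 0 := (mul_eq_zero.1 (by
      linear_combination (a ^ 2 - e * b * c) * r0 + e * (b ^ 2 - a * c) * r1 +
        e * (e * c ^ 2 - a * b) * r2)).resolve_left hN
    have hb : b' = 0 := (mul_eq_zero.1 (by
      linear_combination (e * c ^ 2 - a * b) * r0 + (a ^ 2 - e * b * c) * r1 +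
        e * (b ^ 2 - a * c) * r2)).resolve_left hN
    have hcc : c' = 0 := (mul_eq_zero.1 (by
      linear_combination (b ^ 2 - a * c) * r0 + (e * c ^ 2 - a * b) * r1 +
        (a ^ 2 - e * b * c) * r2)).resolve_left hN
    exact hz (by rw [h', ha, hb, hcc]; simp)

end Dat

end Pool.Agent.P.MP_4fa782_ag.LD
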