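import Pool.Agent.P.MP_4fa782_ag.Sat

/-! The cubic extension obtained by adjoining a cube root of a prime element. -/

namespace Pool.Agent.P.MP_4fa782_ag.LD

open Polynomial

/-- The algebraic closure of the fraction field. -/
abbrev Om (R : Type) [CommRing R] [IsDomain R] : Type := AlgebraicClosure (FractionRing R)

/-- The properties of the cubic extension that are used. -/
structure Cub (R L : Type) [CommRing R] [IsDomain R] [Field L] [Algebra R L] (s : R) (σ : L) :
    Prop where
  cube : σ ^ 3 = algebraMap R L s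
  indep : ∀ a b c : R, algebraMap R L a + algebraMap R L b * σ + algebraMap R L c * σ ^ 2 = 0 →
    a = 0 ∧ b = 0 ∧ c = 0
  normal : ∀ x : L, IsIntegral R x →
    ∃ a b c : R, x = algebraMap R L a + algebraMap R L b * σ + algebraMap R L c * σ ^ 2
  conj : ∀ y : Om R, y ^ 3 = algebraMap R (Om R) s → ∃ ψ : L →ₐ[R] Om R, ψ σ = y

theorem exists_omega (K : Type) [Field K] [IsAlgClosed K] : ∃ w : K, w ^ 2 + w + 1 = 0 := by
  obtain ⟨w, hw⟩ := IsAlgClosed.exists_root (X ^ 2 + X + 1 : K[X]) (by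
    have : (X ^ 2 + X + 1 : K[X]).degree = 2 := by compute_degree!
    rw [this]; norm_num)
  exact ⟨w, by simpa using hw⟩

variable {R : Type} [CommRing R] [IsDomain R]

omit [IsDomain R] in
theorem isIntegral_of_cube {A : Type} [CommRing A] [Algebra R A] {y : A} {s : R}
    (h : y ^ 3 = algebraMap R A s) : IsIntegral R y :=
  ⟨X ^ 3 - C s, monic_X_pow_sub_C _ (by norm_num), by simp [h]⟩

theorem mem_of_integral [IsIntegrallyClosed R] {c : FractionRing R}
    (h : IsIntegral R (algebraMap (FractionRing R) (Om R) c)) :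
    ∃ a : R, algebraMap R (FractionRing R) a = c := by
  rw [isIntegral_algebraMap_iff (RingHom.injective _)] at h
  exact IsIntegrallyClosed.algebraMap_eq_of_integral h

theorem exists_cub [IsIntegrallyClosed R] {s : R} (hs : Prime s) (h3 : IsUnit (3 : R)) :
    ∃ (L : Type) (_ : Field L) (_ : Algebra R L) (σ : L), Cub R L s σ := by
  set K := FractionRing R
  have hinj := IsFractionRing.injective R K
  have hirr : Irreducible (X ^ 3 - C (algebraMap R K s)) := by
    refine X_pow_sub_C_irreducible_of_prime Nat.prime_three fun b hb => ?_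
    obtain ⟨r, rfl⟩ := IsIntegrallyClosed.algebraMap_eq_of_integral (isIntegral_of_cube hb)
    have h1 : s = r * r ^ 2 := hinj (by rw [← hb, map_mul, map_pow]; ring)
    rcases hs.irreducible.isUnit_or_isUnit h1 with h | h
    · exact hs.not_isUnit (h1 ▸ h.mul (h.pow 2))
    · exact hs.not_isUnit (h1 ▸ ((isUnit_pow_iff two_ne_zero).1 h).mul h)
  set g : K[X] := X ^ 3 - C (algebraMap R K s) with hg
  have : Fact (Irreducible g) := ⟨hirr⟩
  set L := AdjoinRoot g
  set σ : L := AdjoinRoot.root g with hσ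
  have hcube : σ ^ 3 = algebraMap R L s := by
    have h := AdjoinRoot.eval₂_root g
    rw [hg, eval₂_sub, eval₂_X_pow, eval₂_C, sub_eq_zero] at h
    rw [IsScalarTower.algebraMap_apply R K L]
    exact h
  have hconj : ∀ y : Om R, y ^ 3 = algebraMap R (Om R) s → ∃ ψ : L →ₐ[K] Om R, ψ σ = y := by
    intro y hy
    refine ⟨AdjoinRoot.liftAlgHom g (Algebra.ofId K (Om R)) y ?_, AdjoinRoot.liftAlgHom_root ..⟩
    rw [hg, eval₂_sub, eval₂_X_pow, eval₂_C, hy, IsScalarTower.algebraMap_apply R K (Om R)]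
    exact sub_self _
  have hspan : ∀ x : L, ∃ a b c : K,
      x = algebraMap K L a + algebraMap K L b * σ + algebraMap K L c * σ ^ 2 := by
    intro x
    have hx : x ∈ Algebra.adjoin K ({σ} : Set L) := by
      rw [hσ, AdjoinRoot.adjoinRoot_eq_top]; trivial
    induction hx using Algebra.adjoin_induction with
    | mem x hx => exact ⟨0, 1, 0, by rw [hx]; simp⟩
    | algebraMap r => exact ⟨r, 0, 0, by simp⟩
    | add x y _ _ hx hy =>
      obtain ⟨a, b, c, rfl⟩ := hx
      obtain ⟨a', b', c', rfl⟩ := hy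
      exact ⟨a + a', b + b', c + c', by simp only [map_add]; ring⟩
    | mul x y _ _ hx hy =>
      obtain ⟨a, b, c, rfl⟩ := hx
      obtain ⟨a', b', c', rfl⟩ := hy
      refine ⟨a * a' + algebraMap R K s * (b * c' + c * b'),
        a * b' + b * a' + algebraMap R K s * (c * c'), a * c' + b * b' + c * a', ?_⟩
      simp only [map_add, map_mul, ← IsScalarTower.algebraMap_apply, ← hcube]
      ring
  obtain ⟨w, hw⟩ := exists_omega (Om R)
  obtain ⟨y, hy⟩ := IsAlgClosed.exists_pow_nat_eq (algebraMap R (Om R) s) (n := 3) (by norm_num)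
  have hw3 : w ^ 3 = 1 := by linear_combination (w - 1) * hw
  obtain ⟨ψ0, h0⟩ := hconj y hy
  obtain ⟨ψ1, h1⟩ := hconj (w * y) (by rw [mul_pow, hw3, one_mul, hy])
  obtain ⟨ψ2, h2⟩ := hconj (w ^ 2 * y) (by
    rw [mul_pow, ← pow_mul, mul_comm 2 3, pow_mul, hw3, one_pow, one_mul, hy])
  obtain ⟨u, hu⟩ := h3.exists_left_inv
  have hu' : algebraMap R (Om R) u * 3 = 1 := by
    rw [← map_ofNat (algebraMap R (Om R)) 3, ← map_mul, hu, map_one]
  have hform : ∀ (x : L) (a b c : K),
      x = algebraMap K L a + algebraMap K L b * σ + algebraMap K L c * σ ^ 2 →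
      algebraMap K (Om R) a = algebraMap R _ u * (ψ0 x + ψ1 x + ψ2 x) ∧
      algebraMap K (Om R) b * y = algebraMap R _ u * (ψ0 x + w ^ 2 * ψ1 x + w * ψ2 x) ∧
      algebraMap K (Om R) c * y ^ 2 = algebraMap R _ u * (ψ0 x + w * ψ1 x + w ^ 2 * ψ2 x) := by
    rintro _ a b c rfl
    simp only [map_add, map_mul, map_pow, AlgHom.commutes, h0, h1, h2]
    set A := algebraMap K (Om R) a
    set B := algebraMap K (Om R) b
    set C := algebraMap K (Om R) c
    set U := algebraMap R (Om R) u
    refine ⟨?_, ?_, ?_⟩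
    · linear_combination (-A) * hu' - U * (B * y + C * y ^ 2) * hw - U * C * y ^ 2 * w * hw3
    · linear_combination (-(B * y)) * hu' - U * (A + C * y ^ 2) * hw -
        U * (2 * B * y + C * y ^ 2 * (w + w ^ 2)) * hw3
    · linear_combination (-(C * y ^ 2)) * hu' - U * (A + B * y) * hw -
        U * (B * y * w + C * y ^ 2 * (w ^ 3 + 2)) * hw3
  have hinjO := algebraMap_algebraicClosure_injective R
  have hs0 : algebraMap R (Om R) s ≠ 0 := (map_ne_zero_iff _ hinjO).2 hs.ne_zero
  have hy0 : y ≠ 0 := fun h => hs0 (by rw [← hy, h]; ring)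
  have tw : ∀ a : R, algebraMap K (Om R) (algebraMap R K a) = algebraMap R (Om R) a :=
    fun a => (IsScalarTower.algebraMap_apply R K (Om R) a).symm
  refine ⟨L, inferInstance, inferInstance, σ, hcube, fun a b c h => ?_, fun x hx => ?_,
    fun y hy => ?_⟩
  · obtain ⟨e0, e1, e2⟩ := hform 0 (algebraMap R K a) (algebraMap R K b) (algebraMap R K c) (by
      simp only [← IsScalarTower.algebraMap_apply]; exact h.symm)
    simp only [map_zero, mul_zero, add_zero, tw, mul_eq_zero, hy0, pow_eq_zero_iff, or_false,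
      ne_eq, OfNat.ofNat_ne_zero, not_false_eq_true, map_eq_zero_iff _ hinjO] at e0 e1 e2
    exact ⟨e0, e1, e2⟩
  · obtain ⟨a, b, c, hx'⟩ := hspan x
    obtain ⟨e0, e1, e2⟩ := hform x a b c hx'
    have i0 : IsIntegral R (ψ0 x) := hx.map (ψ0.restrictScalars R)
    have i1 : IsIntegral R (ψ1 x) := hx.map (ψ1.restrictScalars R)
    have i2 : IsIntegral R (ψ2 x) := hx.map (ψ2.restrictScalars R)
    have iw : IsIntegral R w := isIntegral_of_cube (s := 1) (by rw [hw3, map_one])
    have iy : IsIntegral R y := isIntegral_of_cube hy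
    have iu : IsIntegral R (algebraMap R (Om R) u) := isIntegral_algebraMap
    have j0 : IsIntegral R (algebraMap K (Om R) a) := e0 ▸ iu.mul ((i0.add i1).add i2)
    have j1 : IsIntegral R (algebraMap K (Om R) b * y) :=
      e1 ▸ iu.mul ((i0.add ((iw.pow 2).mul i1)).add (iw.mul i2))
    have j2 : IsIntegral R (algebraMap K (Om R) c * y ^ 2) :=
      e2 ▸ iu.mul ((i0.add (iw.mul i1)).add ((iw.pow 2).mul i2))
    obtain ⟨a0, rfl⟩ := mem_of_integral j0
    obtain ⟨b0, hb0⟩ := mem_of_integral (c := b * algebraMap R K s) (by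
      rw [map_mul, tw, ← hy, pow_succ' y 2, ← mul_assoc]
      exact j1.mul (iy.pow 2))
    obtain ⟨b1, hb1⟩ := mem_of_integral (c := b ^ 3 * algebraMap R K s) (by
      rw [map_mul, tw, ← hy, map_pow, ← mul_pow]
      exact j1.pow 3)
    obtain ⟨c0, hc0⟩ := mem_of_integral (c := c * algebraMap R K s) (by
      rw [map_mul, tw, ← hy, pow_succ y 2, ← mul_assoc]
      exact j2.mul iy)
    obtain ⟨c1, hc1⟩ := mem_of_integral (c := c ^ 3 * algebraMap R K s ^ 2) (by
      rw [map_mul, map_pow, map_pow, tw, ← hy]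
      convert j2.pow 3 using 1
      ring)
    have hsK : algebraMap R K s ≠ 0 := (map_ne_zero_iff _ hinj).2 hs.ne_zero
    obtain ⟨b2, rfl⟩ : s ∣ b0 := hs.dvd_of_dvd_pow (n := 3) ⟨s * b1, hinj (by
      rw [map_pow, map_mul, map_mul, hb0, hb1]; ring)⟩
    obtain ⟨c2, rfl⟩ : s ∣ c0 := hs.dvd_of_dvd_pow (n := 3) ⟨c1, hinj (by
      rw [map_pow, map_mul, hc0, hc1]; ring)⟩
    rw [map_mul, mul_comm] at hb0 hc0
    refine ⟨a0, b2, c2, ?_⟩
    rw [hx', ← mul_right_cancel₀ hsK hb0, ← mul_right_cancel₀ hsK hc0]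
    rfl
  · obtain ⟨ψ, hψ⟩ := hconj y hy
    exact ⟨ψ.restrictScalars R, hψ⟩

end Pool.Agent.P.MP_4fa782_ag.LD
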