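import Pool.Agent.P.MP_4fa782_ag.LD.Cubic

/-! The order inside the cubic extension; it is a saturated local domain. -/

namespace Pool.Agent.P.MP_4fa782_ag.LD

open IsLocalRing
open scoped nonZeroDivisors

/-- The data used in the construction. -/
structure Dat (R L : Type) [CommRing R] [IsDomain R] [IsLocalRing R] [Field L] [Algebra R L] where
  s : R
  t : R
  p : R
  σ : L
  hp : p = t ^ 2 * (1 + t)
  hs : s ∈ maximalIdeal R
  ht : t ∈ maximalIdeal R
  s0 : s ≠ 0
  pt : Prime t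
  nd : ¬ t ∣ s
  pf : Prime (p ^ 3 - s ^ 2)
  cub : Cub R L s σ

namespace Dat

variable {R L : Type} [CommRing R] [IsDomain R] [IsLocalRing R] [Field L] [Algebra R L]
  (D : Dat R L)

/-- The element with given coordinates. -/
def ev : (Fin 3 → R) →ₗ[R] L where
  toFun a := algebraMap R L (a 0) + algebraMap R L (a 1) * D.σ + algebraMap R L (a 2) * D.σ ^ 2
  map_add' a b := by simp only [Pi.add_apply, map_add]; ring
  map_smul' r a := by
    simp only [Pi.smul_apply, smul_eq_mul, map_mul, RingHom.id_apply, Algebra.smul_def]; ring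

theorem ev_apply (a : Fin 3 → R) : D.ev a =
    algebraMap R L (a 0) + algebraMap R L (a 1) * D.σ + algebraMap R L (a 2) * D.σ ^ 2 := rfl

theorem ev_injective : Function.Injective D.ev := by
  rw [injective_iff_map_eq_zero]
  intro a ha
  obtain ⟨h0, h1, h2⟩ := D.cub.indep _ _ _ ha
  funext i
  fin_cases i
  exacts [h0, h1, h2]

/-- The condition on the coordinates. -/
def Good (a : Fin 3 → R) : Prop :=
  ∃ α β : R, α ∈ Ideal.span {D.t, D.s ^ 2} ∧ a 1 = α * D.s + β * D.p ^ 2 ∧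
    a 2 = α * D.p + β * D.s

theorem t_mem : D.t ∈ Ideal.span {D.t, D.s ^ 2} := Ideal.subset_span (by simp)

theorem ss_mem : D.s ^ 2 ∈ Ideal.span {D.t, D.s ^ 2} := Ideal.subset_span (by simp)

theorem t_dvd_p : D.t ∣ D.p := ⟨D.t * (1 + D.t), by rw [D.hp]; ring⟩

theorem p_mem : D.p ∈ Ideal.span {D.t, D.s ^ 2} := by
  obtain ⟨c, hc⟩ := D.t_dvd_p
  rw [hc]
  exact Ideal.mul_mem_right _ _ D.t_mem

theorem ev_mul (a b : Fin 3 → R) : D.ev a * D.ev b =
    D.ev ![a 0 * b 0 + D.s * (a 1 * b 2 + a 2 * b 1), a 0 * b 1 + a 1 * b 0 + D.s * (a 2 * b 2),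
      a 0 * b 2 + a 1 * b 1 + a 2 * b 0] := by
  simp only [ev_apply, Matrix.cons_val_zero, Matrix.cons_val_one, Matrix.cons_val, map_add,
    map_mul, ← D.cub.cube]
  ring

/-- The order. -/
def oo : Subalgebra R L where
  carrier := {z | ∃ a, D.Good a ∧ D.ev a = z}
  mul_mem' := by
    rintro _ _ ⟨a, ⟨α, β, h, h1, h2⟩, rfl⟩ ⟨b, ⟨α', β', h', h1', h2'⟩, rfl⟩
    refine ⟨_, ⟨a 0 * α' + b 0 * α + (α * β' + α' * β) * D.s * D.p +
      β * β' * (D.s ^ 2 + D.p ^ 2 * D.p), a 0 * β' + b 0 * β + α * α' * D.s - β * β' * D.s * D.p,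
      ?_, ?_, ?_⟩, (D.ev_mul a b).symm⟩
    · exact Ideal.add_mem _ (Ideal.add_mem _ (Ideal.add_mem _ (Ideal.mul_mem_left _ _ h')
        (Ideal.mul_mem_left _ _ h)) (Ideal.mul_mem_left _ _ D.p_mem)) (Ideal.mul_mem_left _ _
        (Ideal.add_mem _ D.ss_mem (Ideal.mul_mem_left _ _ D.p_mem)))
    · simp only [Matrix.cons_val_zero, Matrix.cons_val_one, h1, h2, h1', h2']
      ring
    · simp only [Matrix.cons_val, h1, h2, h1', h2']
      ring
  add_mem' := by
    rintro _ _ ⟨a, ⟨α, β, h, h1, h2⟩, rfl⟩ ⟨b, ⟨α', β', h', h1', h2'⟩, rfl⟩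
    refine ⟨a + b, ⟨α + α', β + β', Ideal.add_mem _ h h', ?_, ?_⟩, map_add _ _ _⟩
    · rw [Pi.add_apply, h1, h1']; ring
    · rw [Pi.add_apply, h2, h2']; ring
  algebraMap_mem' r := ⟨![r, 0, 0], ⟨0, 0, by simp, by simp, by simp⟩, by simp [ev_apply]⟩

/-- The coordinates of an element of the order. -/
noncomputable def co : D.oo →ₗ[R] (Fin 3 → R) :=
  (LinearEquiv.ofInjective D.ev D.ev_injective).symm.toLinearMap ∘ₗ
    LinearMap.codRestrict (LinearMap.range D.ev) D.oo.val.toLinearMap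
      (fun z => by obtain ⟨a, -, h⟩ := z.2; exact ⟨a, h⟩)

theorem ev_co (z : D.oo) : D.ev (D.co z) = z := by
  simp [co]

theorem co_eq {z : D.oo} {a : Fin 3 → R} (h : D.ev a = z) : D.co z = a :=
  D.ev_injective (by rw [ev_co, h])

theorem co_injective : Function.Injective D.co := fun z w h =>
  Subtype.ext (by rw [← ev_co, ← ev_co, h])

theorem good_co (z : D.oo) : D.Good (D.co z) := by
  obtain ⟨a, h1, h2⟩ := z.2
  rwa [D.co_eq h2]

theorem co_algebraMap (r : R) : D.co (algebraMap R D.oo r) = ![r, 0, 0] :=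
  D.co_eq (by simp [ev_apply])

theorem algebraMap_injective : Function.Injective (algebraMap R D.oo) := fun a b h => by
  simpa [co_algebraMap] using congrArg (fun z => D.co z 0) h

theorem isUnit_of_isUnit (z : D.oo) (h : IsUnit (D.co z 0)) : IsUnit z := by
  set a := D.co z with ha
  have h1 : z * (z ^ 2 - algebraMap R D.oo (3 * a 0) * z +
      algebraMap R D.oo (3 * a 0 ^ 2 - 3 * D.s * a 1 * a 2)) =
      algebraMap R D.oo (a 0 ^ 3 + D.s * (a 1 ^ 3 + D.s * a 2 ^ 3 - 3 * a 0 * a 1 * a 2)) := by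
    apply Subtype.ext
    simp only [MulMemClass.coe_mul, AddMemClass.coe_add, AddSubgroupClass.coe_sub,
      SubmonoidClass.coe_pow, SubalgebraClass.coe_algebraMap]
    simp only [← D.ev_co z, ← ha, ev_apply, map_add, map_sub, map_mul, map_pow, map_ofNat,
      ← D.cub.cube]
    ring
  refine isUnit_of_mul_isUnit_left (h1 ▸ IsUnit.map _ ?_)
  by_contra h2
  have h3 := Ideal.sub_mem _ ((mem_maximalIdeal _).2 h2) (Ideal.mul_mem_right
    (a 1 ^ 3 + D.s * a 2 ^ 3 - 3 * a 0 * a 1 * a 2) _ D.hs)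
  rw [add_sub_cancel_right] at h3
  exact h3 (h.pow 3)

instance : IsLocalRing D.oo := by
  apply IsLocalRing.of_isUnit_or_isUnit_one_sub_self
  intro z
  rcases IsLocalRing.isUnit_or_isUnit_one_sub_self (D.co z 0) with h | h
  · exact Or.inl (D.isUnit_of_isUnit z h)
  · refine Or.inr (D.isUnit_of_isUnit _ ?_)
    rw [map_sub, ← map_one (algebraMap R D.oo), co_algebraMap]
    simpa using h

theorem jacobson_le : Ring.jacobson R ≤ (Ring.jacobson D.oo).comap (algebraMap R D.oo) := by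
  rw [ringJacobson_eq_maximalIdeal, ringJacobson_eq_maximalIdeal]
  intro r hr h
  obtain ⟨z, hz⟩ := h.exists_right_inv
  have h1 := congrArg (fun z => D.co z 0) hz
  simp only [← Algebra.smul_def, map_smul, ← map_one (algebraMap R D.oo), co_algebraMap] at h1
  exact hr (IsUnit.of_mul_eq_one _ (by simpa using h1))

theorem finite_oo [IsNoetherianRing R] : Module.Finite R D.oo :=
  Module.Finite.of_injective D.co D.co_injective

theorem isNoetherianRing_oo [IsNoetherianRing R] : IsNoetherianRing D.oo :=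
  have := D.finite_oo
  IsNoetherianRing.of_finite R D.oo

theorem mem_of_f_dvd {x y : R} (h : D.p ^ 3 - D.s ^ 2 ∣ D.s * x + D.p * y) :
    D.s * x ∈ Ideal.span {D.t, D.s ^ 2} := by
  obtain ⟨c, hc⟩ := h
  have : D.s * x = D.p * (D.p ^ 2 * c - y) - c * D.s ^ 2 := by linear_combination hc
  rw [this]
  exact Ideal.sub_mem _ (Ideal.mul_mem_right _ _ D.p_mem) (Ideal.mul_mem_left _ _ D.ss_mem)

/-- The divisibility form of saturation. -/
theorem good_of_dvd {a e c : Fin 3 → R} (ha : D.Good a)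
    (h : D.ev ![e 1, -e 2, 0] = D.ev ![a 1, -a 2, 0] * D.ev c) : D.Good e := by
  obtain ⟨α, β, hα, h1, h2⟩ := ha
  rw [ev_mul] at h
  have h3 := D.ev_injective h
  have e1 := congrFun h3 0
  have e2 := congrFun h3 1
  have e3 := congrFun h3 2
  simp only [Matrix.cons_val_zero, Matrix.cons_val_one, Matrix.cons_val, h1, h2] at e1 e2 e3
  refine ⟨α * c 0 - β * (D.p * c 1) - D.s * β * c 2, β * D.p * c 2 - α * c 1 + β * c 0, ?_,
    by linear_combination e1 + D.p * e3, by linear_combination -e2⟩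
  refine Ideal.sub_mem _ (Ideal.sub_mem _ (Ideal.mul_mem_right _ _ hα)
    (Ideal.mul_mem_left _ _ (Ideal.mul_mem_right _ _ D.p_mem))) ?_
  have h4 : D.p ^ 3 - D.s ^ 2 ∣ (D.s * β + D.p * α) * (D.s * c 2 + D.p * (-c 1)) :=
    ⟨-(β * c 2), by linear_combination (-D.p) * e3⟩
  rcases D.pf.dvd_or_dvd h4 with h5 | h5
  · exact Ideal.mul_mem_right _ _ (D.mem_of_f_dvd h5)
  · rw [mul_right_comm]
    exact Ideal.mul_mem_right _ _ (D.mem_of_f_dvd h5)

/-- The embedding of the fraction field of the order. -/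
noncomputable def lam : FractionRing D.oo →ₐ[R] L :=
  IsLocalization.liftAlgHom (M := D.oo⁰) (f := D.oo.val)
    (fun y => IsUnit.mk0 _ fun h => nonZeroDivisors.ne_zero y.2 (Subtype.ext h))

theorem lam_algebraMap (z : D.oo) : D.lam (algebraMap D.oo (FractionRing D.oo) z) = z := by
  simp [lam]

theorem isSaturated [IsNoetherianRing R] (h3 : (3 : R) ≠ 0) :
    IsSaturated R D.oo (algebraMap D.oo (FractionRing D.oo)).range := by
  rintro _ ⟨z, rfl⟩ η hη hdom
  have := D.finite_oo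
  have hη' : IsIntegral R η := isIntegral_trans _ hη
  obtain ⟨e0, e1, e2, he⟩ := D.cub.normal _ (hη'.map D.lam)
  suffices h : D.Good ![e0, e1, e2] by
    exact ⟨⟨_, _, h, rfl⟩, D.lam.injective ((D.lam_algebraMap _).trans he.symm)⟩
  have hinjO := algebraMap_algebraicClosure_injective R
  obtain ⟨w, hw⟩ := exists_omega (Om R)
  obtain ⟨y, hy⟩ := IsAlgClosed.exists_pow_nat_eq (algebraMap R (Om R) D.s) (n := 3) (by norm_num)
  have hw3 : w ^ 3 = 1 := by linear_combination (w - 1) * hw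
  obtain ⟨ψ0, h0⟩ := D.cub.conj y hy
  obtain ⟨ψ1, h1⟩ := D.cub.conj (w * y) (by rw [mul_pow, hw3, one_mul, hy])
  obtain ⟨ψ2, h2⟩ := D.cub.conj (w ^ 2 * y) (by
    rw [mul_pow, ← pow_mul, mul_comm 2 3, pow_mul, hw3, one_pow, one_mul, hy])
  have hy0 : y ≠ 0 := fun h => (map_ne_zero_iff _ hinjO).2 D.s0 (by rw [← hy, h]; ring)
  have hw0 : (w - w ^ 2) * y ≠ 0 := by
    refine mul_ne_zero (fun h => (map_ne_zero_iff _ hinjO).2 h3 ?_) hy0
    rw [map_ofNat]
    linear_combination (-(w - w ^ 2)) * h + (w ^ 2 - 3 * w + 3) * hw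
  have hdiff : ∀ a : Fin 3 → R,
      ψ1 (D.ev a) - ψ2 (D.ev a) = (w - w ^ 2) * y * ψ0 (D.ev ![a 1, -a 2, 0]) := by
    intro a
    simp only [ev_apply, map_add, map_mul, map_pow, AlgHom.commutes, h0, h1, h2,
      Matrix.cons_val_zero, Matrix.cons_val_one, Matrix.cons_val, map_neg, map_zero]
    linear_combination (algebraMap R (Om R) (a 2) * y ^ 2 * (w - w ^ 2)) * hw
  obtain ⟨k1, k2⟩ := hdom (ψ1.comp D.lam) (ψ2.comp D.lam)
  have he' : D.lam η = D.ev ![e0, e1, e2] := he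
  simp only [AlgHom.comp_apply, lam_algebraMap, he', ← D.ev_co z] at k1 k2
  by_cases hz : ψ1 (D.ev (D.co z)) = ψ2 (D.ev (D.co z))
  · have h4 := hdiff ![e0, e1, e2]
    rw [k1 hz, sub_self, eq_comm, mul_eq_zero, or_iff_right hw0, map_eq_zero] at h4
    exact D.good_of_dvd (c := 0) (D.good_co z) (by rw [h4, map_zero, mul_zero])
  · have h4 := (k2 hz).2
    have h5 : D.ev ![D.co z 1, -D.co z 2, 0] ≠ 0 := fun h => hz (by
      rw [← sub_eq_zero, hdiff, h, map_zero, mul_zero])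
    rw [hdiff, hdiff, mul_div_mul_left _ _ hw0, ← map_div₀,
      isIntegral_algHom_iff ψ0 ψ0.injective] at h4
    obtain ⟨c0, c1, c2, hc⟩ := D.cub.normal _ h4
    refine D.good_of_dvd (c := ![c0, c1, c2]) (D.good_co z) ?_
    rw [div_eq_iff h5, mul_comm] at hc
    exact hc

end Dat

end Pool.Agent.P.MP_4fa782_ag.LD
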